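import Pool.Agent.Helper66.PV.Defs
import Pool.Agent.Helper45.Cheb

/-!
# PV-I: the number of primes in `(k, 2k]`
-/

set_option autoImplicit false

open Finset Filter

namespace Pool.Agent.Helper13.PV

open Pool.Agent.Helper66.PV

/-- the primes in `(k, 2k]` -/
def dp (k : ℕ) : Finset ℕ := (Ioc k (2 * k)).filter Nat.Prime

theorem card_Ik (k : ℕ) : (Ik k).card = (dp k).card := by
  apply Finset.card_bij (fun (i : Fin k) _ => (i : ℕ) + k + 1)
  · intro i hi
    have hi2 : ((i : ℕ) + k + 1).Prime := by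
      have := hi
      unfold Ik at this
      exact (mem_filter.1 this).2
    have := i.2
    exact mem_filter.2 ⟨mem_Ioc.2 ⟨by omega, by omega⟩, hi2⟩
  · intro i _ j _ h
    have h' : (i : ℕ) = j := by omega
    exact Fin.ext h'
  · intro p hp
    obtain ⟨h1, h2⟩ := mem_filter.1 hp
    obtain ⟨h3, h4⟩ := mem_Ioc.1 h1
    refine ⟨⟨p - k - 1, by omega⟩, ?_, ?_⟩
    · unfold Ik
      refine mem_filter.2 ⟨mem_univ _, ?_⟩
      have : p - k - 1 + k + 1 = p := by omega
      simpa [this] using h2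
    · show p - k - 1 + k + 1 = p
      omega

theorem theta_sub_le (k : ℕ) :
    Chebyshev.theta ((2 * k : ℕ) : ℝ) - Chebyshev.theta (k : ℝ) ≤
      (dp k).card * Real.log (2 * k) := by
  unfold Chebyshev.theta
  rw [Nat.floor_natCast, Nat.floor_natCast]
  have hU : (Ioc 0 (2 * k)).filter Nat.Prime = (Ioc 0 k).filter Nat.Prime ∪ dp k := by
    unfold dp
    rw [← filter_union]
    congr 1
    ext a
    simp only [mem_union, mem_Ioc]
    omega
  have hD : Disjoint ((Ioc 0 k).filter Nat.Prime) (dp k) := by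
    rw [Finset.disjoint_left]
    intro a ha hb
    have h1 := mem_Ioc.1 (mem_filter.1 ha).1
    have h2 := mem_Ioc.1 (mem_filter.1 hb).1
    omega
  rw [hU, sum_union hD, add_sub_cancel_left]
  calc ∑ p ∈ dp k, Real.log (p : ℝ) ≤ ∑ _p ∈ dp k, Real.log (2 * k) := by
        apply sum_le_sum
        intro p hp
        obtain ⟨h1, h2⟩ := mem_filter.1 hp
        obtain ⟨h3, h4⟩ := mem_Ioc.1 h1
        apply Real.log_le_log
        · exact_mod_cast h2.pos
        · exact_mod_cast h4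
    _ = (dp k).card * Real.log (2 * k) := by rw [sum_const, nsmul_eq_mul]

theorem dp_pos {k : ℕ} (hk : 1 ≤ k) : 1 ≤ (dp k).card := by
  obtain ⟨p, hp, h1, h2⟩ := Nat.exists_prime_lt_and_le_two_mul k (by omega)
  exact card_pos.2 ⟨p, mem_filter.2 ⟨mem_Ioc.2 ⟨h1, h2⟩, hp⟩⟩

theorem large : ∀ᶠ k : ℕ in atTop, (1 / 2 : ℝ) * k ≤ (dp k).card * Real.log (2 * k) := by
  have t1 : Tendsto (fun k : ℕ => ((2 * k : ℕ) : ℝ)) atTop atTop := by
    apply tendsto_natCast_atTop_atTop.comp
    exact tendsto_id.const_mul_atTop' (by norm_num)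
  have e1 := t1.eventually Pool.Agent.Helper45.Cheb.eventually_psi_ge
  have e2 := tendsto_natCast_atTop_atTop.eventually Pool.Agent.Helper45.Cheb.eventually_psi_le
  have hlo := (isLittleO_log_rpow_atTop (r := 1 / 2) (by norm_num)).bound (c := 1 / 40) (by norm_num)
  have e3 := t1.eventually hlo
  filter_upwards [e1, e2, e3, eventually_ge_atTop 1] with k h1 h2 h3 hk
  have hk1 : (1 : ℝ) ≤ ((2 * k : ℕ) : ℝ) := by exact_mod_cast (show 1 ≤ 2 * k by omega)
  have h4 := Chebyshev.psi_sub_theta_le hk1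
  have h5 := Chebyshev.theta_le_psi (k : ℝ)
  have h6 := theta_sub_le k
  rw [Real.norm_of_nonneg (Real.log_nonneg hk1), Real.norm_of_nonneg (by positivity),
    ← Real.sqrt_eq_rpow] at h3
  have h7 : 2 * √((2 * k : ℕ) : ℝ) * Real.log ((2 * k : ℕ) : ℝ) ≤
      1 / 20 * ((2 * k : ℕ) : ℝ) := by
    have hs : √((2 * k : ℕ) : ℝ) * √((2 * k : ℕ) : ℝ) = ((2 * k : ℕ) : ℝ) :=
      Real.mul_self_sqrt (by positivity)
    have := mul_le_mul_of_nonneg_left h3 (Real.sqrt_nonneg ((2 * k : ℕ) : ℝ))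
    nlinarith
  push_cast at h1 h2 h4 h5 h6 h7
  have hk0 : (0 : ℝ) ≤ k := Nat.cast_nonneg k
  linarith

theorem ikCard : Pool.Agent.Helper66.PV.IkCard := by
  obtain ⟨K, hK⟩ := eventually_atTop.1 large
  have hl2 : 0 < Real.log 2 := Real.log_pos (by norm_num)
  refine ⟨min (1 / 2) (Real.log 2 / (K + 1)), by positivity, fun k hk => ?_⟩
  have hk' : (1 : ℝ) ≤ k := by exact_mod_cast hk
  have hlog : Real.log 2 ≤ Real.log (2 * k) := Real.log_le_log (by norm_num) (by linarith)
  have hlog0 : 0 < Real.log (2 * k) := by linarith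
  rw [card_Ik, div_le_iff₀ hlog0]
  by_cases h : K ≤ k
  · calc min (1 / 2) (Real.log 2 / (K + 1)) * (k : ℝ) ≤ 1 / 2 * k :=
          mul_le_mul_of_nonneg_right (min_le_left _ _) (by linarith)
      _ ≤ _ := hK k h
  · push Not at h
    have h1 : (k : ℝ) ≤ K + 1 := by
      have : (k : ℝ) ≤ K := by exact_mod_cast h.le
      linarith
    have h2 : (1 : ℝ) ≤ (dp k).card := by exact_mod_cast dp_pos hk
    calc min (1 / 2) (Real.log 2 / (K + 1)) * (k : ℝ) ≤ Real.log 2 / (K + 1) * (K + 1) := by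
          apply mul_le_mul (min_le_right _ _) h1 (by linarith) (by positivity)
      _ = Real.log 2 := by field_simp
      _ ≤ 1 * Real.log (2 * k) := by linarith
      _ ≤ (dp k).card * Real.log (2 * k) := mul_le_mul_of_nonneg_right h2 hlog0.le

end Pool.Agent.Helper13.PV
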